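import Mathlib
import Pool.Agent.H523R2.Cap.Rate

/-!
`τ_r ≥ 2.22086^r` for all large `r`.
-/

namespace Pool.Agent.Results.MP_06b118_co.CapRate

open Pool.Agent.H523R2.Cap

/-- No three pairwise distinct elements of `A` have sum zero. -/
def WeaklyZeroThreeSumFree {r : ℕ} (A : Finset (Fin r → ZMod 3)) : Prop :=
  ∀ a ∈ A, ∀ b ∈ A, ∀ c ∈ A, a ≠ b → b ≠ c → a ≠ c → a + b + c ≠ 0

/-- `τ_r`: the largest size of a weakly zero-3-sum-free subset of `Z_3^r`. -/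
noncomputable def tau (r : ℕ) : ℕ :=
  sSup {t | ∃ A : Finset (Fin r → ZMod 3), WeaklyZeroThreeSumFree A ∧ A.card = t}

lemma bdd (r : ℕ) :
    BddAbove {t | ∃ A : Finset (Fin r → ZMod 3), WeaklyZeroThreeSumFree A ∧ A.card = t} := by
  refine ⟨Fintype.card (Fin r → ZMod 3), ?_⟩
  rintro t ⟨A, _, rfl⟩
  exact Finset.card_le_univ A

theorem result : ∃ r0 : ℕ, ∀ r : ℕ, r0 ≤ r → (2.22086 : ℝ) ^ r ≤ (tau r : ℝ) := by
  obtain ⟨n0, h⟩ := rate
  refine ⟨n0, fun n hn => ?_⟩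
  obtain ⟨A, hA, hA'⟩ := h n hn
  refine hA'.trans ?_
  have : A.card ≤ tau n := le_csSup (bdd n) ⟨A, ?_, rfl⟩
  · exact_mod_cast this
  · intro a ha b hb c hc hab _ _ hs
    exact hab (hA.no_sum ha hb hc hs)

end Pool.Agent.Results.MP_06b118_co.CapRate
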